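import Mathlib

/-!
# Lions and contamination: definitions
-/

set_option autoImplicit false

namespace Pool.Agent.R186.Lions

variable {V : Type*} (G : SimpleGraph V)

/-- The set of cleared vertices one step after the set `C`, if the lions move from the positions
`p` to the positions `q`: the vertices occupied after the step, and the vertices `v ∈ C` such that
every neighbour `u ∉ C` of `v` is blocked by a lion which moves along `vu` from `v` to `u`. -/
def next {k : ℕ} (p q : Fin k → V) (C : Set V) : Set V :=
  {v | v ∈ Set.range q ∨ (v ∈ C ∧ ∀ u, G.Adj v u → u ∉ C → ∃ i, p i = v ∧ q i = u)}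

/-- The set `C(t)` of cleared vertices at time `t`, if the lions have the positions `p t i`. -/
def cleared {k : ℕ} (p : ℕ → Fin k → V) : ℕ → Set V
  | 0 => Set.range (p 0)
  | t + 1 => next G (p t) (p (t + 1)) (cleared p t)

/-- `IsSweep G k T p`: the positions `p t i` (`0 ≤ t ≤ T`) of `k` lions form a sweep of `G` of
length `T`: in every step each lion stays or moves along one edge, and `C(T) = V`. -/
def IsSweep (k T : ℕ) (p : ℕ → Fin k → V) : Prop :=
  (∀ t, t < T → ∀ i, p (t + 1) i = p t i ∨ G.Adj (p t i) (p (t + 1) i)) ∧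
    cleared G p T = Set.univ

/-- `G` admits a sweep by `k` lions. -/
def CanSweep (k : ℕ) : Prop := ∃ (T : ℕ) (p : ℕ → Fin k → V), IsSweep G k T p

/-- `G` admits a monotonic sweep by `k` lions: `C(t) ⊆ C(t + 1)` for all `t < T`. -/
def CanSweepMonotonically (k : ℕ) : Prop :=
  ∃ (T : ℕ) (p : ℕ → Fin k → V), IsSweep G k T p ∧
    ∀ t, t < T → cleared G p t ⊆ cleared G p (t + 1)

end Pool.Agent.R186.Lions
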