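import Pool.Agent.R186.Lions.Defs

/-!
# Two lions on a small graph: executable form
-/

set_option autoImplicit false

namespace Pool.Agent.R186.Lions

variable {n : ℕ}

/-- executable version of `next` for two lions, with the cleared set coded in binary -/
def nxt (adj : Fin n → Fin n → Bool) (a b a' b' : Fin n) (c : ℕ) : ℕ :=
  Nat.ofBits (n := n) fun v => (v == a' || v == b') ||
    (c.testBit v && (List.finRange n).all fun u =>
      !(adj v u) || (c.testBit u || ((a == v && a' == u) || (b == v && b' == u))))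

/-- the code of a set -/
def Rep (c : ℕ) (C : Set (Fin n)) : Prop := ∀ v : Fin n, c.testBit v = true ↔ v ∈ C

theorem rep_nxt {G : SimpleGraph (Fin n)} {adj : Fin n → Fin n → Bool}
    (hadj : ∀ u v, adj u v = true ↔ G.Adj u v) {c : ℕ} {C : Set (Fin n)} (h : Rep c C)
    (p q : Fin 2 → Fin n) :
    Rep (nxt adj (p 0) (p 1) (q 0) (q 1) c) (next G p q C) := by
  intro v
  unfold nxt
  rw [Nat.testBit_ofBits_lt _ _ v.2]
  simp only [Fin.eta, Bool.or_eq_true, Bool.and_eq_true, beq_iff_eq, List.all_eq_true,
    Bool.not_eq_true']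
  unfold next
  simp only [Set.mem_ofPred_eq, Set.mem_range, Fin.exists_fin_two]
  rw [h v]
  refine or_congr ⟨fun h => h.imp Eq.symm Eq.symm, fun h => h.imp Eq.symm Eq.symm⟩
    (and_congr_right fun _ => ⟨fun h2 u hu hC => ?_, fun h2 u _ => ?_⟩)
  · rcases h2 u (List.mem_finRange u) with h3 | h3 | h3
    · rw [(hadj v u).2 hu] at h3
      exact absurd h3 (by decide)
    · exact absurd ((h u).1 h3) hC
    · exact h3
  · by_cases h3 : G.Adj v u
    · by_cases h4 : u ∈ C
      · exact Or.inr (Or.inl ((h u).2 h4))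
      · exact Or.inr (Or.inr (h2 u h3 h4))
    · left
      rw [← Bool.not_eq_true, hadj]
      exact h3

/-- the code of the initial set -/
def ini (a b : Fin n) : ℕ := Nat.ofBits (n := n) fun v => v == a || v == b

theorem rep_ini (p : Fin 2 → Fin n) : Rep (ini (p 0) (p 1)) (Set.range p) := by
  intro v
  unfold ini
  rw [Nat.testBit_ofBits_lt _ _ v.2]
  simp only [Fin.eta, Bool.or_eq_true, beq_iff_eq, Set.mem_range, Fin.exists_fin_two]
  exact ⟨fun h => h.imp Eq.symm Eq.symm, fun h => h.imp Eq.symm Eq.symm⟩

/-- the code of a state: positions `a`, `b` and cleared set `c` -/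
def code (a b : Fin n) (c : ℕ) : ℕ := (a * n + b) * 2 ^ n + c

/-- does the family of states coded by `F` contain the initial states, no state with everything
cleared, and is it closed under the (monotone, if `mono`) moves? -/
def closedFam (adj : Fin n → Fin n → Bool) (mono : Bool) (F : ℕ) : Bool :=
  (List.finRange n).all fun a => (List.finRange n).all fun b =>
    F.testBit (code a b (ini a b)) && ((!F.testBit (code a b (2 ^ n - 1))) &&
    (List.range (2 ^ n)).all fun c => !F.testBit (code a b c) ||
      (List.finRange n).all fun a' => !(a == a' || adj a a') ||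
        (List.finRange n).all fun b' => !(b == b' || adj b b') ||
          ((mono && !(c &&& nxt adj a b a' b' c == c)) ||
            F.testBit (code a' b' (nxt adj a b a' b' c))))

theorem nxt_lt (adj : Fin n → Fin n → Bool) (a b a' b' : Fin n) (c : ℕ) :
    nxt adj a b a' b' c < 2 ^ n := Nat.ofBits_lt_two_pow _

theorem ini_lt (a b : Fin n) : ini a b < 2 ^ n := Nat.ofBits_lt_two_pow _

/-- the invariant along a run -/
theorem run_inv {G : SimpleGraph (Fin n)} {adj : Fin n → Fin n → Bool}
    (hadj : ∀ u v, adj u v = true ↔ G.Adj u v) {mono : Bool} {F : ℕ}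
    (hF : closedFam adj mono F = true) {T : ℕ} {p : ℕ → Fin 2 → Fin n}
    (hp : ∀ t, t < T → ∀ i, p (t + 1) i = p t i ∨ G.Adj (p t i) (p (t + 1) i))
    (hm : mono = true → ∀ t, t < T → cleared G p t ⊆ cleared G p (t + 1)) :
    ∀ t, t ≤ T → ∃ c, c < 2 ^ n ∧ Rep c (cleared G p t) ∧
      F.testBit (code (p t 0) (p t 1) c) = true := by
  have hF' : ∀ a b : Fin n, F.testBit (code a b (ini a b)) = true ∧
      ∀ c, c < 2 ^ n → F.testBit (code a b c) = true → ∀ a', (a = a' ∨ G.Adj a a') →
        ∀ b', (b = b' ∨ G.Adj b b') →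
          ((mono = true → c &&& nxt adj a b a' b' c = c) →
            F.testBit (code a' b' (nxt adj a b a' b' c)) = true) := by
    intro a b
    unfold closedFam at hF
    rw [List.all_eq_true] at hF
    have h1 := hF a (List.mem_finRange a)
    rw [List.all_eq_true] at h1
    have h2 := h1 b (List.mem_finRange b)
    simp only [Bool.and_eq_true, List.all_eq_true, List.mem_range, Bool.or_eq_true,
      Bool.not_eq_true', List.mem_finRange, forall_const] at h2
    refine ⟨h2.1, fun c hc hFc a' ha' b' hb' hmn => ?_⟩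
    have h3 := h2.2.2 c hc
    rcases h3 with h3 | h3
    · rw [hFc] at h3
      exact absurd h3 (by decide)
    · rcases h3 a' with h4 | h4
      · exfalso
        have h5 : (a == a' || adj a a') = true := by
          rw [Bool.or_eq_true, beq_iff_eq, hadj]
          exact ha'
        rw [h5] at h4
        exact absurd h4 (by decide)
      · rcases h4 b' with h5 | h5
        · exfalso
          have h6 : (b == b' || adj b b') = true := by
            rw [Bool.or_eq_true, beq_iff_eq, hadj]
            exact hb'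
          rw [h6] at h5
          exact absurd h5 (by decide)
        · rcases h5 with h6 | h6
          · exfalso
            have h7 := hmn h6.1
            rw [beq_eq_false_iff_ne] at h6
            exact h6.2 h7
          · exact h6
  intro t
  induction t with
  | zero =>
    intro _
    exact ⟨_, ini_lt _ _, rep_ini (p 0), (hF' (p 0 0) (p 0 1)).1⟩
  | succ t ih =>
    intro ht
    obtain ⟨c, hc, hrep, hfc⟩ := ih (by omega)
    have hrep' := rep_nxt hadj hrep (p t) (p (t + 1))
    refine ⟨_, nxt_lt adj (p t 0) (p t 1) (p (t + 1) 0) (p (t + 1) 1) c, hrep', ?_⟩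
    refine (hF' (p t 0) (p t 1)).2 c hc hfc _ ?_ _ ?_ ?_
    · rcases hp t (by omega) 0 with h | h
      · exact Or.inl h.symm
      · exact Or.inr h
    · rcases hp t (by omega) 1 with h | h
      · exact Or.inl h.symm
      · exact Or.inr h
    · intro hmono
      have hsub := hm hmono t (by omega)
      apply Nat.eq_of_testBit_eq
      intro i
      rw [Nat.testBit_and]
      by_cases hi : i < n
      · by_cases hci : c.testBit i = true
        · have h1 : (⟨i, hi⟩ : Fin n) ∈ cleared G p t := (hrep ⟨i, hi⟩).1 hci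
          have h2 := (hrep' ⟨i, hi⟩).2 (hsub h1)
          have h2' : (nxt adj (p t 0) (p t 1) (p (t + 1) 0) (p (t + 1) 1) c).testBit i = true := h2
          rw [h2', Bool.and_true]
        · rw [Bool.not_eq_true] at hci
          rw [hci, Bool.false_and]
      · have : c.testBit i = false :=
          Nat.testBit_lt_two_pow (hc.trans_le (Nat.pow_le_pow_right (by norm_num) (by omega)))
        rw [this, Bool.false_and]

theorem not_univ {F : ℕ} {adj : Fin n → Fin n → Bool} {mono : Bool}
    (hF : closedFam adj mono F = true) {a b : Fin n} {c : ℕ} (hc : c < 2 ^ n)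
    (h : F.testBit (code a b c) = true) {C : Set (Fin n)} (hrep : Rep c C) : C ≠ Set.univ := by
  rintro rfl
  have hc' : c = 2 ^ n - 1 := by
    apply Nat.eq_of_testBit_eq
    intro i
    rw [Nat.testBit_two_pow_sub_one]
    by_cases hi : i < n
    · rw [decide_eq_true hi]
      exact (hrep ⟨i, hi⟩).2 (Set.mem_univ _)
    · rw [decide_eq_false hi]
      exact Nat.testBit_lt_two_pow (hc.trans_le (Nat.pow_le_pow_right (by norm_num) (by omega)))
  subst hc'
  unfold closedFam at hF
  rw [List.all_eq_true] at hF
  have h1 := hF a (List.mem_finRange a)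
  rw [List.all_eq_true] at h1
  have h2 := h1 b (List.mem_finRange b)
  simp only [Bool.and_eq_true, Bool.not_eq_true'] at h2
  rw [h2.2.1] at h
  exact absurd h (by decide)

theorem not_canSweep {G : SimpleGraph (Fin n)} {adj : Fin n → Fin n → Bool}
    (hadj : ∀ u v, adj u v = true ↔ G.Adj u v) {F : ℕ} (hF : closedFam adj false F = true) :
    ¬ CanSweep G 2 := by
  rintro ⟨T, p, hp, hT⟩
  obtain ⟨c, hc, hrep, h⟩ := run_inv hadj hF hp (fun h => absurd h (by decide)) T le_rfl
  exact not_univ hF hc h hrep hT

theorem not_canSweepMonotonically {G : SimpleGraph (Fin n)} {adj : Fin n → Fin n → Bool}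
    (hadj : ∀ u v, adj u v = true ↔ G.Adj u v) {F : ℕ} (hF : closedFam adj true F = true) :
    ¬ CanSweepMonotonically G 2 := by
  rintro ⟨T, p, ⟨hp, hT⟩, hm⟩
  obtain ⟨c, hc, hrep, h⟩ := run_inv hadj hF hp (fun _ => hm) T le_rfl
  exact not_univ hF hc h hrep hT

/-- the codes of the cleared sets along the positions `P` -/
def cm (adj : Fin n → Fin n → Bool) (P : ℕ → Fin n × Fin n) : ℕ → ℕ
  | 0 => ini (P 0).1 (P 0).2
  | t + 1 => nxt adj (P t).1 (P t).2 (P (t + 1)).1 (P (t + 1)).2 (cm adj P t)

/-- do the positions `P` form a (monotonic) sweep of length `T`? -/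
def runOk (adj : Fin n → Fin n → Bool) (mono : Bool) (P : ℕ → Fin n × Fin n) (T : ℕ) : Bool :=
  ((List.range T).all fun t => ((P t).1 == (P (t + 1)).1 || adj (P t).1 (P (t + 1)).1) &&
    (((P t).2 == (P (t + 1)).2 || adj (P t).2 (P (t + 1)).2) &&
      (!mono || (cm adj P t &&& cm adj P (t + 1) == cm adj P t)))) && cm adj P T == 2 ^ n - 1

theorem runOk_sound {G : SimpleGraph (Fin n)} {adj : Fin n → Fin n → Bool}
    (hadj : ∀ u v, adj u v = true ↔ G.Adj u v) {mono : Bool} {P : ℕ → Fin n × Fin n} {T : ℕ}
    (h : runOk adj mono P T = true) :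
    IsSweep G 2 T (fun t => ![(P t).1, (P t).2]) ∧
      (mono = true → ∀ t, t < T → cleared G (fun t => ![(P t).1, (P t).2]) t ⊆
        cleared G (fun t => ![(P t).1, (P t).2]) (t + 1)) := by
  have hrep : ∀ t, Rep (cm adj P t) (cleared G (fun t => ![(P t).1, (P t).2]) t) := by
    intro t
    induction t with
    | zero => exact rep_ini ![(P 0).1, (P 0).2]
    | succ t ih => exact rep_nxt hadj ih ![(P t).1, (P t).2] ![(P (t + 1)).1, (P (t + 1)).2]
  unfold runOk at h
  rw [Bool.and_eq_true, List.all_eq_true, beq_iff_eq] at h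
  obtain ⟨h1, h2⟩ := h
  refine ⟨⟨fun t ht i => ?_, ?_⟩, fun hm t ht v hv => ?_⟩
  · have h3 := h1 t (List.mem_range.2 ht)
    simp only [Bool.and_eq_true, Bool.or_eq_true, beq_iff_eq, hadj] at h3
    fin_cases i
    · exact h3.1.imp Eq.symm id
    · exact h3.2.1.imp Eq.symm id
  · rw [Set.eq_univ_iff_forall]
    intro v
    rw [← hrep T v, h2, Nat.testBit_two_pow_sub_one]
    exact decide_eq_true v.2
  · have h3 := h1 t (List.mem_range.2 ht)
    rw [hm] at h3
    simp only [Bool.and_eq_true, Bool.not_true, Bool.false_or, beq_iff_eq] at h3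
    have h4 := (hrep t v).2 hv
    rw [← h3.2.2, Nat.testBit_and, Bool.and_eq_true] at h4
    exact (hrep (t + 1) v).1 h4.2

theorem canSweep_of_run {G : SimpleGraph (Fin n)} {adj : Fin n → Fin n → Bool}
    (hadj : ∀ u v, adj u v = true ↔ G.Adj u v) {P : ℕ → Fin n × Fin n} {T : ℕ}
    (h : runOk adj false P T = true) : CanSweep G 2 :=
  ⟨T, _, (runOk_sound hadj h).1⟩

theorem canSweepMonotonically_of_run {G : SimpleGraph (Fin n)} {adj : Fin n → Fin n → Bool}
    (hadj : ∀ u v, adj u v = true ↔ G.Adj u v) {P : ℕ → Fin n × Fin n} {T : ℕ}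
    (h : runOk adj true P T = true) : CanSweepMonotonically G 2 :=
  ⟨T, _, (runOk_sound hadj h).1, (runOk_sound hadj h).2 rfl⟩

end Pool.Agent.R186.Lions
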